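import Pool.Agent.helper13.RF.SpecT
import Pool.Agent.helper60.RF.RDA

set_option autoImplicit false

namespace Pool.Agent.RF

open NumberField

/-- `vv β = B + 5 v(n')` and `A + B = 5 v(n)` -/
theorem TRD_v (h1 : TID_stmt) (h2 : LOC_stmt) (h3 : VVM_stmt) (h5 : TLA_stmt) (D₀ : ℤ) (F : Type) [Field F] [NumberField F]
    (C : Ctx D₀ F) (p : Pt) (f : ℕ) (hp : IsPt p) (hpD : p.D = D₀ * (f : ℤ) ^ 2) (P : Ideal (𝓞 F))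
    (hP : P.IsPrime) (hP0 : P ≠ ⊥) (hg : ((ct p : ℕ) : 𝓞 F) ∈ P) :
    (vv P (be C f p) : ℤ) = 5 * (vv P (C.ι p.n) : ℤ) - AV C f P p + 5 * (vv P (C.ι (star p.n)) : ℤ) := by
  have e := RDA_v h1 h2 h3 D₀ F C p f hp hpD P hP hP0
  have t := (h5 D₀ F C p f hp hpD P hP hP0 hg).1
  have b : BV C f P p = 2 * (vv P (th C f p) : ℤ) + (vv P (C.σ (th C f p)) : ℤ) - 2 * (vv P (C.ι (star p.n)) : ℤ) := rfl
  rw [b] at t
  rw [e]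
  push_cast
  linarith

theorem TRD (h1 : TID_stmt) (h2 : LOC_stmt) (h3 : VVM_stmt) (h4 : VV5_stmt) (h5 : TLA_stmt) : TRD_stmt := by
  intro D₀ F _ _ C p q f hp hq hpD hqD hct hT
  obtain ⟨b0, ⟨g1, hg1⟩, d1⟩ := RDA_g h1 D₀ F C p f hp hpD
  obtain ⟨c0, ⟨g2, hg2⟩, d2⟩ := RDA_g h1 D₀ F C q f hq hqD
  refine ⟨mul_ne_zero b0 (pow_ne_zero _ c0), ⟨g1 * g2 ^ 4, ?_⟩, ?_, ?_⟩
  · push_cast
    rw [map_mul, map_pow, hg1, hg2]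
    ring
  · apply (h4 F).2 _ (mul_ne_zero b0 (pow_ne_zero _ c0))
    intro P hP hP0
    rw [(h3 F P hP hP0).1 _ _ b0 (pow_ne_zero _ c0), DEL_pow h3 F P hP hP0 _ c0]
    by_cases hgP : ((ct p : ℕ) : 𝓞 F) ∈ P
    · have t0 := (hT P hP hgP).1
      have e1 := TRD_v h1 h2 h3 h5 D₀ F C p f hp hpD P hP hP0 hgP
      have e2 := TRD_v h1 h2 h3 h5 D₀ F C q f hq hqD P hP hP0 (by rw [← hct]; exact hgP)
      omega
    · obtain ⟨a, ha⟩ := RDA_v5 h1 h2 h3 D₀ F C p f hp hpD P hP hP0 hgP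
      obtain ⟨b, hb⟩ := RDA_v5 h1 h2 h3 D₀ F C q f hq hqD P hP hP0 (by rw [← hct]; exact hgP)
      exact ⟨a + 4 * b, by rw [ha, hb]; ring⟩
  · obtain ⟨a, ha⟩ := d1
    obtain ⟨b, hb⟩ := d2
    have e1 : be C f p = 1 + 25 * a := by rw [← ha]; ring
    have e2 : be C f q = 1 + 25 * b := by rw [← hb]; ring
    rw [e1, e2]
    exact ⟨a * (1 + 25 * b) ^ 4 + b * ((1 + 25 * b) ^ 3 + (1 + 25 * b) ^ 2 + (1 + 25 * b) + 1), by ring⟩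

end Pool.Agent.RF
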